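import Pool.Agent.Helper9_PSet.PFA

/-!
# `ω*`, P-sets and tall P-ideals
-/

set_option autoImplicit false

namespace Pool.Agent.Helper9_PSet

open Set Cardinal

/-- `ω*`: the nonprincipal ultrafilters on `ω`, with the topology of the Stone-Čech
compactification `Ultrafilter ℕ` -/
abbrev OmegaStar : Type := {x : Ultrafilter ℕ // ∀ n : ℕ, x ≠ pure n}

/-- P-sets of a topological space: nonempty closed sets `F` such that the intersection of any
countably many open sets containing `F` contains `F` in its interior -/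
structure IsPSet {X : Type} [TopologicalSpace X] (F : Set X) : Prop where
  ne : F.Nonempty
  closed : IsClosed F
  int : ∀ G : ℕ → Set X, (∀ n, IsOpen (G n)) → (∀ n, F ⊆ G n) → F ⊆ interior (⋂ n, G n)

/-- the clopen subset of `ω*` given by `A ⊆ ω` -/
def st (A : Set ℕ) : Set OmegaStar := {x | A ∈ x.1}

theorem mem_st {A : Set ℕ} {x : OmegaStar} : x ∈ st A ↔ A ∈ x.1 := Iff.rfl

theorem isOpen_st (A : Set ℕ) : IsOpen (st A) :=
  (ultrafilter_isOpen_basic A).preimage continuous_subtype_val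

theorem compl_st (A : Set ℕ) : (st A)ᶜ = st Aᶜ := by
  ext x
  rw [mem_compl_iff, mem_st, mem_st, Ultrafilter.compl_mem_iff_notMem]

theorem isClosed_st (A : Set ℕ) : IsClosed (st A) := by
  rw [← isOpen_compl_iff, compl_st]
  exact isOpen_st _

theorem infinite_of_mem (x : OmegaStar) {A : Set ℕ} (h : A ∈ x.1) : A.Infinite := by
  intro hA
  obtain ⟨n, -, hn⟩ := Ultrafilter.eq_pure_of_finite_mem hA h
  exact x.2 n hn

theorem cofinite_mem (x : OmegaStar) {A : Set ℕ} (h : Aᶜ.Finite) : A ∈ x.1 := by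
  by_contra hA
  exact infinite_of_mem x (Ultrafilter.compl_mem_iff_notMem.mpr hA) h

/-- `A ⊆* B` -/
theorem mem_of_diff_finite (x : OmegaStar) {A B : Set ℕ} (h : (A \ B).Finite) (hA : A ∈ x.1) :
    B ∈ x.1 := by
  have h1 : (A \ B)ᶜ ∈ x.1 := cofinite_mem x (by rwa [compl_compl])
  refine Filter.mem_of_superset (Filter.inter_mem hA h1) ?_
  rintro n ⟨hn, hn'⟩
  by_contra hB
  exact hn' ⟨hn, hB⟩

theorem exists_mem {A : Set ℕ} (h : A.Infinite) : ∃ x : OmegaStar, A ∈ x.1 := by
  have hne : (Filter.cofinite ⊓ Filter.principal A).NeBot := by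
    rw [Filter.cofinite_inf_principal_neBot_iff]
    exact h
  refine ⟨⟨Ultrafilter.of (Filter.cofinite ⊓ Filter.principal A), fun n hn => ?_⟩, ?_⟩
  · have h1 : ({n}ᶜ : Set ℕ) ∈ Ultrafilter.of (Filter.cofinite ⊓ Filter.principal A) :=
      Ultrafilter.of_le _ (Filter.mem_inf_of_left (by simp))
    rw [hn] at h1
    simp at h1
  · exact Ultrafilter.of_le (Filter.cofinite ⊓ Filter.principal A)
      (Filter.mem_inf_of_right (Filter.mem_principal_self A))

theorem st_subset {A B : Set ℕ} : st A ⊆ st B ↔ (A \ B).Finite := by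
  constructor
  · intro h
    by_contra hinf
    obtain ⟨x, hx⟩ := exists_mem hinf
    have h1 : A ∈ x.1 := Filter.mem_of_superset hx sdiff_subset
    have h2 : B ∈ x.1 := h h1
    have h3 := Filter.inter_mem hx h2
    have h4 : (A \ B) ∩ B = ∅ := by
      ext n
      simp
    rw [h4] at h3
    exact Ultrafilter.empty_notMem h3
  · intro h x hx
    exact mem_of_diff_finite x h hx

/-- the sets `st A` are a basis -/
theorem exists_st {U : Set OmegaStar} (hU : IsOpen U) {x : OmegaStar} (hx : x ∈ U) :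
    ∃ A : Set ℕ, A ∈ x.1 ∧ st A ⊆ U := by
  obtain ⟨V, hV, rfl⟩ := isOpen_induced_iff.mp hU
  obtain ⟨W, ⟨A, rfl⟩, hxA, hAV⟩ :=
    (ultrafilterBasis_is_basis (α := ℕ)).exists_subset_of_mem_open hx hV
  exact ⟨A, hxA, fun y hy => hAV hy⟩

instance : CompactSpace OmegaStar := by
  refine (isCompact_iff_compactSpace (X := Ultrafilter ℕ)
    (s := {x | ∀ n : ℕ, x ≠ pure n})).mp ?_
  apply IsClosed.isCompact
  have h1 : ({x : Ultrafilter ℕ | ∀ n : ℕ, x ≠ pure n}) = (⋃ n : ℕ, {x | {n} ∈ x})ᶜ := by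
    ext x
    simp only [mem_compl_iff, mem_iUnion, not_exists]
    refine forall_congr' fun n => not_congr ⟨?_, fun h => ?_⟩
    · rintro rfl
      exact Filter.mem_pure.mpr rfl
    · obtain ⟨m, hm, hm'⟩ := Ultrafilter.eq_pure_of_finite_mem (Set.finite_singleton n) h
      rw [mem_singleton_iff] at hm
      rw [hm', hm]
  rw [h1, isClosed_compl_iff]
  exact isOpen_iUnion fun n => ultrafilter_isOpen_basic _

/-- a compact set inside an open set is separated by a clopen set -/
theorem exists_between {F U : Set OmegaStar} (hF : IsClosed F) (hU : IsOpen U) (hFU : F ⊆ U) :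
    ∃ A : Set ℕ, F ⊆ st A ∧ st A ⊆ U := by
  have h1 : ∀ x : F, ∃ A : Set ℕ, A ∈ x.1.1 ∧ st A ⊆ U := fun x => exists_st hU (hFU x.2)
  choose A hA hAU using h1
  obtain ⟨t, ht⟩ := hF.isCompact.elim_finite_subcover (fun x : F => st (A x))
    (fun x => isOpen_st _) (fun x hx => mem_iUnion.mpr ⟨⟨x, hx⟩, hA ⟨x, hx⟩⟩)
  refine ⟨⋃ x ∈ t, A x, fun x hx => ?_, fun x hx => ?_⟩
  · obtain ⟨y, hy, hxy⟩ := mem_iUnion₂.mp (ht hx)
    exact Filter.mem_of_superset hxy (subset_biUnion_of_mem (u := A) hy)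
  · have h2 : (⋃ y ∈ (t : Set F), A y) ∈ x.1 := hx
    obtain ⟨y, -, hy⟩ := (Ultrafilter.finite_biUnion_mem_iff t.finite_toSet).mp h2
    exact hAU y hy

/-! ### Tall P-ideals -/

/-- tall P-ideals -/
structure TPI (I : Set (Set ℕ)) : Prop where
  down : ∀ c ∈ I, ∀ d, (d \ c).Finite → d ∈ I
  tall : ∀ A : Set ℕ, A.Infinite → ∃ B, B ⊆ A ∧ B.Infinite ∧ B ∈ I
  sdir : ∀ c : ℕ → Set ℕ, (∀ n, c n ∈ I) → ∃ d ∈ I, ∀ n, (c n \ d).Finite

/-- the closed set given by an ideal -/
def FI (I : Set (Set ℕ)) : Set OmegaStar := {x | ∀ c ∈ I, c ∉ x.1}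

theorem isClosed_FI (I : Set (Set ℕ)) : IsClosed (FI I) := by
  have h1 : FI I = ⋂ c ∈ I, (st c)ᶜ := by
    ext x
    simp only [FI, mem_iInter, mem_compl_iff, mem_st]
    rfl
  rw [h1]
  exact isClosed_biInter fun c _ => (isOpen_st c).isClosed_compl

theorem interior_FI {I : Set (Set ℕ)} (h : TPI I) : IsNowhereDense (FI I) := by
  rw [IsNowhereDense, (isClosed_FI I).closure_eq, eq_empty_iff_forall_notMem]
  intro x hx
  obtain ⟨A, hA, hAF⟩ := exists_st isOpen_interior hx
  obtain ⟨B, hBA, hB, hBI⟩ := h.tall A (infinite_of_mem x hA)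
  obtain ⟨y, hy⟩ := exists_mem hB
  exact interior_subset (hAF (show A ∈ y.1 from Filter.mem_of_superset hy hBA)) B hBI hy

/-- finite directedness -/
theorem TPI.fin {I : Set (Set ℕ)} (h : TPI I) (t : Finset (Set ℕ)) (ht : ∀ a ∈ t, a ∈ I) :
    ∃ d ∈ I, ∀ a ∈ t, (a \ d).Finite := by
  classical
  induction t using Finset.induction_on with
  | empty =>
    obtain ⟨B, -, -, hB⟩ := h.tall univ Set.infinite_univ
    exact ⟨B, hB, fun a ha => absurd ha (Finset.notMem_empty a)⟩
  | insert a t _ ih =>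
    obtain ⟨d, hd, hdt⟩ := ih fun b hb => ht b (Finset.mem_insert_of_mem hb)
    obtain ⟨e, he, hce⟩ := h.sdir (fun n => if n = 0 then a else d) fun n => by
      by_cases hn : n = 0
      · simpa only [hn, if_true] using ht a (Finset.mem_insert_self _ _)
      · simpa only [hn, if_false] using hd
    have h0 := hce 0
    have h1 := hce 1
    simp only [if_true] at h0
    simp only [one_ne_zero, if_false] at h1
    refine ⟨e, he, fun b hb => ?_⟩
    rcases Finset.mem_insert.mp hb with rfl | hb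
    · exact h0
    · refine ((hdt b hb).union h1).subset ?_
      rintro n ⟨hn, hn'⟩
      by_cases hnd : n ∈ d
      · exact Or.inr ⟨hnd, hn'⟩
      · exact Or.inl ⟨hn, hnd⟩

/-- a tall P-ideal gives a P-set -/
theorem isPSet_FI {I : Set (Set ℕ)} (h : TPI I) (hne : (FI I).Nonempty) : IsPSet (FI I) := by
  classical
  refine ⟨hne, isClosed_FI I, fun G hG hFG => ?_⟩
  -- every open set which contains `FI I` contains the complement of `st c` for some `c` in `I`
  have h1 : ∀ n, ∃ c ∈ I, (st c)ᶜ ⊆ G n := by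
    intro n
    obtain ⟨t, ht⟩ := (hG n).isClosed_compl.isCompact.elim_finite_subcover
      (fun c : I => st c.1) (fun c => isOpen_st _) (fun x hx => by
        by_contra hcon
        refine hx (hFG n fun c hc hcx => hcon ?_)
        exact mem_iUnion.mpr ⟨⟨c, hc⟩, hcx⟩)
    obtain ⟨d, hd, hdt⟩ := h.fin (t.image Subtype.val) (by
      intro a ha
      obtain ⟨b, -, rfl⟩ := Finset.mem_image.mp ha
      exact b.2)
    refine ⟨d, hd, fun x hx => ?_⟩
    by_contra hxG
    obtain ⟨a, ha, hxa⟩ := mem_iUnion₂.mp (ht hxG)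
    exact hx (mem_of_diff_finite x (hdt a.1 (Finset.mem_image_of_mem _ ha)) hxa)
  choose c hc hcG using h1
  obtain ⟨d, hd, hcd⟩ := h.sdir c hc
  have h2 : (st d)ᶜ ⊆ interior (⋂ n, G n) := by
    refine interior_maximal (subset_iInter fun n => ?_) (isClosed_st d).isOpen_compl
    exact (compl_subset_compl.mpr (st_subset.mpr (hcd n))).trans (hcG n)
  exact fun x hx => h2 (hx d hd)

/-- the ideal of a closed set -/
def IF (F : Set OmegaStar) : Set (Set ℕ) := {c | Disjoint (st c) F}

theorem FI_IF {F : Set OmegaStar} (hF : IsClosed F) : FI (IF F) = F := by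
  ext x
  constructor
  · intro hx
    by_contra hxF
    obtain ⟨A, hA, hAF⟩ := exists_st hF.isOpen_compl hxF
    exact hx A (Set.disjoint_left.mpr fun y hy => hAF hy) hA
  · intro hx c hc hcx
    exact Set.disjoint_left.mp hc hcx hx

theorem tpi_IF {F : Set OmegaStar} (hF : IsPSet F) (hn : IsNowhereDense F) : TPI (IF F) := by
  refine ⟨fun c hc d hdc => ?_, fun A hA => ?_, fun c hc => ?_⟩
  · exact Set.disjoint_left.mpr fun x hx =>
      Set.disjoint_left.mp hc (mem_of_diff_finite x hdc hx)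
  · have h1 : ¬ st A ⊆ F := by
      intro hcon
      obtain ⟨x, hx⟩ := exists_mem hA
      have h2 : x ∈ interior F := interior_maximal hcon (isOpen_st A) hx
      rw [IsNowhereDense, hF.closed.closure_eq] at hn
      rw [hn] at h2
      exact h2
    obtain ⟨x, hxA, hxF⟩ := not_subset.mp h1
    obtain ⟨B, hB, hBF⟩ := exists_st hF.closed.isOpen_compl hxF
    refine ⟨A ∩ B, inter_subset_left, infinite_of_mem x (Filter.inter_mem hxA hB), ?_⟩
    exact Set.disjoint_left.mpr fun y hy => hBF (Filter.mem_of_superset hy inter_subset_right)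
  · have h1 := hF.int (fun n => (st (c n))ᶜ) (fun n => (isClosed_st _).isOpen_compl)
      (fun n x hx hxc => Set.disjoint_left.mp (hc n) hxc hx)
    obtain ⟨A, hFA, hA⟩ := exists_between hF.closed isOpen_interior h1
    refine ⟨Aᶜ, ?_, fun n => ?_⟩
    · refine Set.disjoint_left.mpr fun x hx hxF => ?_
      exact (Ultrafilter.compl_mem_iff_notMem.mp hx) (hFA hxF)
    · refine st_subset.mp fun x hx => ?_
      refine Ultrafilter.compl_mem_iff_notMem.mpr fun hxA => ?_
      exact (mem_iInter.mp (interior_subset (hA hxA)) n) hx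

end Pool.Agent.Helper9_PSet
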