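import Pool.Agent.Helper9_PSet.Basic

/-!
# Sets of countable type over a family of `ℵ₁` sets
-/

set_option autoImplicit false

namespace Pool.Agent.Helper9_PSet

open Set Cardinal

/-- `b` is of countable type over `M` -/
def CType (M : Set (Set ℕ)) (b : Set ℕ) : Prop :=
  ∃ B : Set (Set ℕ), B.Countable ∧ (∀ c ∈ B, c.Infinite ∧ c ⊆ b) ∧
    ∀ a ∈ M, (a ∩ b).Infinite → ∃ c ∈ B, (c \ a).Finite

/-- the ideal generated by the sets of countable type -/
def IM (M : Set (Set ℕ)) : Set (Set ℕ) := {c | ∃ b, (c \ b).Finite ∧ CType M b}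

theorem diff_trans {d c b : Set ℕ} (h1 : (d \ c).Finite) (h2 : (c \ b).Finite) :
    (d \ b).Finite := by
  refine (h1.union h2).subset fun n hn => ?_
  by_cases hc : n ∈ c
  · exact Or.inr ⟨hc, hn.2⟩
  · exact Or.inl ⟨hn.1, hc⟩

theorem tpi_IM (h : PFA) (M : Set (Set ℕ)) (hM : #M ≤ aleph 1) : TPI (IM M) := by
  classical
  refine ⟨fun c ⟨b, hcb, hb⟩ d hdc => ⟨b, diff_trans hdc hcb, hb⟩, fun A hA => ?_,
    fun c hc => ?_⟩
  · obtain ⟨x, hx⟩ := exists_mem hA
    let S : Set (Set ℕ) := (fun a => if a ∈ x.1 then a else aᶜ) '' M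
    have hS : #S ≤ aleph 1 := mk_image_le.trans hM
    have hSx : ∀ a ∈ S, a ∈ x.1 := by
      rintro _ ⟨a, -, rfl⟩
      by_cases ha : a ∈ x.1
      · simpa only [ha, if_true] using ha
      · simp only [ha, if_false]
        exact Ultrafilter.compl_mem_iff_notMem.mpr ha
    have hS1 : #(↥(insert A S)) ≤ aleph 1 := by
      refine mk_insert_le.trans ?_
      refine (add_le_add hS (one_le_aleph0.trans (aleph0_le_aleph 1))).trans ?_
      rw [add_eq_self (aleph0_le_aleph 1)]
    obtain ⟨p, hp, hpS⟩ := pseudo h (insert A S) hS1 (by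
      intro t ht
      refine infinite_of_mem x ?_
      have h1 : (⋂ a ∈ (t : Set (Set ℕ)), a) ∈ x.1 := by
        rw [← sInter_eq_biInter]
        refine (Filter.sInter_mem t.finite_toSet).mpr fun a ha => ?_
        rcases ht a ha with rfl | ha
        · exact hx
        · exact hSx a ha
      refine Filter.mem_of_superset h1 fun n hn a ha => ?_
      exact mem_iInter₂.mp hn a ha)
    have hpA : (p ∩ A).Infinite := by
      intro hfin
      refine hp ((hfin.union (hpS A (mem_insert _ _))).subset fun n hn => ?_)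
      by_cases hnA : n ∈ A
      · exact Or.inl ⟨hn, hnA⟩
      · exact Or.inr ⟨hn, hnA⟩
    refine ⟨p ∩ A, inter_subset_right, hpA, p ∩ A, by simp, {p ∩ A}, countable_singleton _,
      fun c hc => ?_, fun a ha hinf => ⟨p ∩ A, mem_singleton _, ?_⟩⟩
    · rw [mem_singleton_iff.mp hc]
      exact ⟨hpA, Subset.rfl⟩
    · have h2 := hpS _ (mem_insert_of_mem A (mem_image_of_mem _ ha))
      by_cases hax : a ∈ x.1
      · simp only [hax, if_true] at h2
        exact h2.subset fun n hn => ⟨hn.1.1, hn.2⟩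
      · simp only [hax, if_false] at h2
        refine absurd (h2.subset fun n hn => ?_) hinf
        exact ⟨hn.2.1, fun hn' => hn' hn.1⟩
  · choose b hcb hb using hc
    choose B hBc hB hBM using hb
    obtain ⟨g, hg⟩ := diag h (ι := {a : Set ℕ // a ∈ M ∧ ∀ n, (a ∩ b n).Finite})
      ((mk_subtype_mono fun a ha => ha.1).trans hM) b Subtype.val (fun a n => a.2.2 n)
    refine ⟨⋃ n, (b n \ Iic (g n)), ⟨⋃ n, (b n \ Iic (g n)), by simp, ?_⟩, fun n => ?_⟩
    · refine ⟨⋃ n, (fun c => c \ Iic (g n)) '' B n, ?_, ?_, ?_⟩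
      · exact countable_iUnion fun n => (hBc n).image _
      · intro c hc
        obtain ⟨n, d, hd, rfl⟩ := mem_iUnion.mp hc
        refine ⟨(hB n d hd).1.sdiff (finite_Iic _), ?_⟩
        exact fun k hk => mem_iUnion.mpr ⟨n, (hB n d hd).2 hk.1, hk.2⟩
      · intro a ha hinf
        have h1 : ∃ n, (a ∩ b n).Infinite := by
          by_contra hcon
          push Not at hcon
          exact hinf (hg ⟨a, ha, fun n => hcon n⟩)
        obtain ⟨n, hn⟩ := h1
        obtain ⟨c, hc, hca⟩ := hBM n a ha hn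
        refine ⟨c \ Iic (g n), mem_iUnion.mpr ⟨n, c, hc, rfl⟩, ?_⟩
        exact hca.subset fun k hk => ⟨hk.1.1, hk.2⟩
    · refine ((hcb n).union (finite_Iic (g n))).subset fun k hk => ?_
      by_contra hk'
      rw [mem_union, not_or] at hk'
      refine hk.2 (mem_iUnion.mpr ⟨n, ?_, hk'.2⟩)
      by_contra hkb
      exact hk'.1 ⟨hk.1, hkb⟩

/-- **Theorem C**, combinatorial form: under PFA, for every family `M` of at most `ℵ₁` sets, the set
of the points of `ω*` which have no element of countable type over `M` is empty or a nowhere dense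
P-set. -/
theorem no_ctype (h : PFA) (M : Set (Set ℕ)) (hM : #M ≤ aleph 1)
    (hne : {x : OmegaStar | ¬ ∃ b ∈ x.1, CType M b}.Nonempty) :
    IsPSet {x : OmegaStar | ¬ ∃ b ∈ x.1, CType M b} ∧
      IsNowhereDense {x : OmegaStar | ¬ ∃ b ∈ x.1, CType M b} := by
  have e : {x : OmegaStar | ¬ ∃ b ∈ x.1, CType M b} = FI (IM M) := by
    ext x
    constructor
    · rintro hx c ⟨b, hcb, hb⟩ hc
      exact hx ⟨b, mem_of_diff_finite x hcb hc, hb⟩
    · rintro hx ⟨b, hbx, hb⟩
      exact hx b ⟨b, by simp, hb⟩ hbx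
  rw [e] at hne ⊢
  exact ⟨isPSet_FI (tpi_IM h M hM) hne, interior_FI (tpi_IM h M hM)⟩

/-! ### Topological form -/

/-- the cluster set of `f` restricted to `b` -/
def clus {K : Type} [TopologicalSpace K] (f : ℕ → K) (b : Set ℕ) : Set K :=
  ⋂ n : ℕ, closure (f '' (b \ Iio n))

/-- the points of `ω*` for which no set has a separable cluster set -/
def NF {K : Type} [TopologicalSpace K] (f : ℕ → K) : Set OmegaStar :=
  {x | ¬ ∃ b ∈ x.1, TopologicalSpace.IsSeparable (clus f b)}

theorem mem_clus {K : Type} [TopologicalSpace K] (f : ℕ → K) (b : Set ℕ) (z : K) :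
    z ∈ clus f b ↔ ∀ U : Set K, IsOpen U → z ∈ U → (f ⁻¹' U ∩ b).Infinite := by
  constructor
  · intro hz U hU hzU hfin
    obtain ⟨N, hN⟩ := hfin.bddAbove
    have h1 := mem_iInter.mp hz (N + 1)
    obtain ⟨_, hyU, n, hn, rfl⟩ := mem_closure_iff.mp h1 U hU hzU
    have h2 : n ≤ N := hN ⟨hyU, hn.1⟩
    have h3 : ¬ n < N + 1 := hn.2
    omega
  · intro h1
    refine mem_iInter.mpr fun n => mem_closure_iff.mpr fun U hU hzU => ?_
    obtain ⟨k, hk, hnk⟩ := (h1 U hU hzU).exists_gt n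
    exact ⟨f k, hk.1, k, ⟨hk.2, fun h => absurd (show k < n from h) (by omega)⟩, rfl⟩

/-- infinite sets have cluster points -/
theorem exists_cluster {K : Type} [TopologicalSpace K] [CompactSpace K] (f : ℕ → K) (c : Set ℕ)
    (hc : c.Infinite) : ∃ z : K, ∀ V : Set K, IsOpen V → z ∈ V → (f ⁻¹' V ∩ c).Infinite := by
  obtain ⟨y, hy⟩ := exists_mem hc
  have hz := (Ultrafilter.map f y.1).le_nhds_lim
  refine ⟨(Ultrafilter.map f y.1).lim, fun V hV hzV =>
    infinite_of_mem y (Filter.inter_mem ?_ hy)⟩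
  exact hz (hV.mem_nhds hzV)

/-- sets of countable type over the preimages of a basis have a separable cluster set -/
theorem separable_of_ctype {K : Type} [TopologicalSpace K] [CompactSpace K] [T2Space K]
    {U : Set (Set K)} (hU : TopologicalSpace.IsTopologicalBasis U) (f : ℕ → K) {b : Set ℕ}
    (hb : CType (preimage f '' U) b) : TopologicalSpace.IsSeparable (clus f b) := by
  classical
  obtain ⟨B, hBc, hB, hBM⟩ := hb
  have h1 := exists_cluster f
  have hK : Nonempty K := ⟨f 0⟩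
  choose! z hz using h1
  refine ⟨z '' B, hBc.image _, fun w hw => ?_⟩
  rw [mem_clus] at hw
  rw [mem_closure_iff_nhds]
  intro V hV
  obtain ⟨W, hW, hWc, hWV⟩ := exists_mem_nhds_isClosed_subset hV
  obtain ⟨u, hu, hwu, huW⟩ := hU.mem_nhds_iff.mp hW
  obtain ⟨c, hc, hcu⟩ := hBM (f ⁻¹' u) ⟨u, hu, rfl⟩ (hw u (hU.isOpen hu) hwu)
  refine ⟨z c, hWV ?_, c, hc, rfl⟩
  by_contra hcon
  refine (hz c (hB c hc).1 Wᶜ hWc.isOpen_compl hcon) (hcu.subset fun n hn => ⟨hn.2, fun hn' => ?_⟩)
  exact hn.1 (huW hn')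

/-- the ideal generated by the sets with a separable cluster set -/
theorem tpi_sep (h : PFA) {K : Type} [TopologicalSpace K] [CompactSpace K] [T2Space K]
    {U : Set (Set K)} (hU : TopologicalSpace.IsTopologicalBasis U) (hU1 : #U ≤ aleph 1)
    (f : ℕ → K) : TPI {c | ∃ b, (c \ b).Finite ∧ TopologicalSpace.IsSeparable (clus f b)} := by
  classical
  have hM : #(↥(preimage f '' U)) ≤ aleph 1 := mk_image_le.trans hU1
  refine ⟨fun c ⟨b, hcb, hb⟩ d hdc => ⟨b, diff_trans hdc hcb, hb⟩, fun A hA => ?_,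
    fun c hc => ?_⟩
  · obtain ⟨B, hBA, hB, b, hBb, hb⟩ := (tpi_IM h _ hM).tall A hA
    exact ⟨B, hBA, hB, b, hBb, separable_of_ctype hU f hb⟩
  · choose b hcb hb using hc
    choose D hDc hD using hb
    let E : Set K := closure (⋃ n, D n)
    obtain ⟨g, hg⟩ := diag h (ι := {a : Set ℕ // a ∈ preimage f '' U ∧ ∀ n, (a ∩ b n).Finite})
      ((mk_subtype_mono fun a ha => ha.1).trans hM) b Subtype.val (fun a n => a.2.2 n)
    refine ⟨⋃ n, (b n \ Iic (g n)), ⟨⋃ n, (b n \ Iic (g n)), by simp, ⋃ n, D n,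
      countable_iUnion hDc, ?_⟩, fun n => ?_⟩
    · intro w hw
      by_contra hwE
      have h1 : (closure (⋃ n, D n))ᶜ ∈ nhds w := isClosed_closure.isOpen_compl.mem_nhds hwE
      obtain ⟨W, hW, hWc, hWV⟩ := exists_mem_nhds_isClosed_subset h1
      obtain ⟨u, hu, hwu, huW⟩ := hU.mem_nhds_iff.mp hW
      have h2 : ∀ n, (f ⁻¹' u ∩ b n).Finite := by
        intro n
        by_contra hinf
        obtain ⟨z, hz⟩ := exists_cluster f _ hinf
        have hz1 : z ∈ clus f (b n) := by
          rw [mem_clus]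
          exact fun V hV hzV => (hz V hV hzV).mono fun k hk => ⟨hk.1, hk.2.2⟩
        have hz2 : z ∈ W := by
          by_contra hzW
          obtain ⟨k, hk⟩ := (hz Wᶜ hWc.isOpen_compl hzW).nonempty
          exact hk.1 (huW hk.2.1)
        exact hWV hz2 (closure_mono (subset_iUnion D n) (hD n hz1))
      have h3 := hg ⟨f ⁻¹' u, ⟨u, hu, rfl⟩, h2⟩
      exact (mem_clus f _ w).mp hw u (hU.isOpen hu) hwu h3
    · refine ((hcb n).union (finite_Iic (g n))).subset fun k hk => ?_
      by_contra hk'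
      rw [mem_union, not_or] at hk'
      refine hk.2 (mem_iUnion.mpr ⟨n, ?_, hk'.2⟩)
      by_contra hkb
      exact hk'.1 ⟨hk.1, hkb⟩

/-- **Theorem C**, topological form -/
theorem no_separable (h : PFA) {K : Type} [TopologicalSpace K] [CompactSpace K] [T2Space K]
    {U : Set (Set K)} (hU : TopologicalSpace.IsTopologicalBasis U) (hU1 : #U ≤ aleph 1)
    (f : ℕ → K) (hne : (NF f).Nonempty) : IsPSet (NF f) ∧ IsNowhereDense (NF f) := by
  have e : NF f = FI {c | ∃ b, (c \ b).Finite ∧ TopologicalSpace.IsSeparable (clus f b)} := by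
    ext x
    constructor
    · rintro hx c ⟨b, hcb, hb⟩ hc
      exact hx ⟨b, mem_of_diff_finite x hcb hc, hb⟩
    · rintro hx ⟨b, hbx, hb⟩
      exact hx b ⟨b, by simp, hb⟩ hbx
  rw [e] at hne ⊢
  exact ⟨isPSet_FI (tpi_sep h hU hU1 f) hne, interior_FI (tpi_sep h hU hU1 f)⟩

end Pool.Agent.Helper9_PSet
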