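import Pool.Agent.Helper9_PSet.Resolve

/-!
# OK points
-/

set_option autoImplicit false

namespace Pool.Agent.Helper9_PSet

open Set Cardinal Topology

/-- Kunen's `κ`-OK points, for `κ` the cardinal of `ι`: for every sequence `U 1, U 2, ...` of
neighbourhoods of `p` there are neighbourhoods `V α`, `α : ι`, such that for every `n ≥ 1` the
intersection of any `n` of the `V α` is contained in `U n` -/
def IsOK {X : Type} [TopologicalSpace X] (ι : Type) (p : X) : Prop :=
  ∀ U : ℕ → Set X, (∀ n, U n ∈ 𝓝 p) → ∃ V : ι → Set X, (∀ α, V α ∈ 𝓝 p) ∧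
    ∀ n : ℕ, 1 ≤ n → ∀ t : Finset ι, t.card = n → (⋂ α ∈ t, V α) ⊆ U n

/-- nonempty clopen sets are P-sets -/
theorem isPSet_st {A : Set ℕ} (hA : A.Infinite) : IsPSet (st A) :=
  ⟨exists_mem hA, isClosed_st A, fun _ _ h => interior_maximal (subset_iInter h) (isOpen_st A)⟩

/-- points of `ω*` for which every countable intersection of neighbourhoods is a neighbourhood -/
theorem isPSet_singleton (x : OmegaStar) (hx : ∀ u : ℕ → Set ℕ, (∀ n, u n ∈ x.1) →
    ∃ A ∈ x.1, ∀ n, (A \ u n).Finite) : IsPSet {x} ∧ IsNowhereDense {x} := by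
  refine ⟨⟨singleton_nonempty x, isClosed_singleton, fun G hG hxG => ?_⟩, ?_⟩
  · have h1 : ∀ n, ∃ A : Set ℕ, A ∈ x.1 ∧ st A ⊆ G n := fun n =>
      exists_st (hG n) (hxG n rfl)
    choose u hu huG using h1
    obtain ⟨A, hA, hAu⟩ := hx u hu
    rintro y rfl
    have h2 : st A ⊆ interior (⋂ n, G n) :=
      interior_maximal (subset_iInter fun n => (st_subset.mpr (hAu n)).trans (huG n))
        (isOpen_st A)
    exact h2 hA
  · rw [IsNowhereDense, isClosed_singleton.closure_eq, eq_empty_iff_forall_notMem]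
    intro y hy
    obtain ⟨A, hA, hAx⟩ := exists_st isOpen_interior hy
    have hAinf := infinite_of_mem y hA
    -- split `A` into two infinite sets
    obtain ⟨B, hBA, hB, hB'⟩ : ∃ B, B ⊆ A ∧ B.Infinite ∧ (A \ B).Infinite := by
      obtain ⟨e, he⟩ : ∃ e : ℕ → ℕ, Function.Injective e ∧ ∀ n, e n ∈ A :=
        ⟨fun n => (hAinf.natEmbedding A n : ℕ),
          fun a b h => (hAinf.natEmbedding A).injective (Subtype.ext h),
          fun n => (hAinf.natEmbedding A n).2⟩
      refine ⟨range fun n => e (2 * n), ?_, ?_, ?_⟩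
      · rintro _ ⟨n, rfl⟩
        exact he.2 _
      · exact Set.infinite_range_of_injective fun a b h => by
          have := he.1 h
          omega
      · refine (Set.infinite_range_of_injective (f := fun n => e (2 * n + 1)) fun a b h => ?_).mono ?_
        · have := he.1 h
          omega
        · rintro _ ⟨n, rfl⟩
          refine ⟨he.2 _, ?_⟩
          rintro ⟨m, hm⟩
          have := he.1 hm
          omega
    obtain ⟨y1, hy1⟩ := exists_mem hB
    obtain ⟨y2, hy2⟩ := exists_mem hB'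
    have e1 : y1 = x := by
      have h5 : y1 ∈ interior ({x} : Set OmegaStar) := hAx (Filter.mem_of_superset hy1 hBA)
      exact mem_singleton_iff.mp (interior_subset h5)
    have e2 : y2 = x := by
      have h5 : y2 ∈ interior ({x} : Set OmegaStar) :=
        hAx (Filter.mem_of_superset hy2 sdiff_subset)
      exact mem_singleton_iff.mp (interior_subset h5)
    rw [e1] at hy1
    rw [e2] at hy2
    have h3 := Filter.inter_mem hy1 hy2
    have h4 : B ∩ (A \ B) = ∅ := by
      ext n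
      simp only [mem_inter_iff, mem_sdiff, mem_empty_iff_false, iff_false]
      exact fun h => h.2.2 h.1
    rw [h4] at h3
    exact Ultrafilter.empty_notMem h3

/-- **Theorem F**: under PFA every `ω₁`-OK point of `ω*` is in a nowhere dense P-set. -/
theorem ok_covered (h : PFA) {ι : Type} (hι : #ι = aleph 1) (x : OmegaStar) (hx : IsOK ι x) :
    ∃ F : Set OmegaStar, IsPSet F ∧ IsNowhereDense F ∧ x ∈ F := by
  classical
  by_cases hP : ∀ u : ℕ → Set ℕ, (∀ n, u n ∈ x.1) → ∃ A ∈ x.1, ∀ n, (A \ u n).Finite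
  · exact ⟨{x}, (isPSet_singleton x hP).1, (isPSet_singleton x hP).2, rfl⟩
  push Not at hP
  obtain ⟨u, hu, hnu⟩ := hP
  obtain ⟨V, hV, hVU⟩ := hx (fun n => st (⋂ k ∈ Iic n, u k)) fun n =>
    (isOpen_st _).mem_nhds ((Filter.biInter_mem (finite_Iic n)).mpr fun k _ => hu k)
  have h1 : ∀ α, ∃ v : Set ℕ, v ∈ x.1 ∧ st v ⊆ V α := by
    intro α
    obtain ⟨v, hv, hvV⟩ := exists_st isOpen_interior (mem_interior_iff_mem_nhds.mpr (hV α))
    exact ⟨v, hv, hvV.trans interior_subset⟩
  choose v hv hvV using h1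
  let S : Set (Set OmegaStar) :=
    (fun q : ι × ℕ => st (v q.1 \ u q.2)) '' {q | (v q.1 \ u q.2).Infinite}
  have hS : #S ≤ aleph 1 := by
    refine mk_image_le.trans ((mk_set_le _).trans ?_)
    rw [mk_prod, lift_id, lift_id, hι, mk_nat]
    exact (mul_eq_left (aleph0_le_aleph 1) (aleph0_le_aleph 1) aleph0_ne_zero).le
  have hSP : ∀ F ∈ S, IsPSet F := by
    rintro _ ⟨q, hq, rfl⟩
    exact isPSet_st hq
  by_cases hN : ∃ W, IsClopen W ∧ x ∈ W ∧ Resolves S W
  swap
  · obtain ⟨h2, h3⟩ := no_resolve h S hS hSP ⟨x, hN⟩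
    exact ⟨_, h2, h3, hN⟩
  exfalso
  obtain ⟨W, hW, hxW, C, hC, hCV, hCS⟩ := hN
  -- every `α` gives a member of `C` and a number
  have h2 : ∀ α, ∃ n, ∃ O ∈ C, O ⊆ st (v α \ u n) := by
    intro α
    obtain ⟨b, hb1, hb2⟩ := exists_between hW.1 hW.2 Subset.rfl
    have hbx : b ∈ x.1 := hb1 hxW
    obtain ⟨n, hn⟩ := hnu (v α ∩ b) (Filter.inter_mem (hv α) hbx)
    have hinf : (v α \ u n).Infinite := Set.Infinite.mono (fun k hk => ⟨hk.1.1, hk.2⟩) hn
    obtain ⟨O, hO, hOs⟩ := hCS (st (v α \ u n)) ⟨(α, n), hinf, rfl⟩ (by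
      obtain ⟨y, hy⟩ := exists_mem hn
      refine ⟨y, Filter.mem_of_superset hy fun k hk => ⟨hk.1.1, hk.2⟩, hb2 ?_⟩
      exact Filter.mem_of_superset hy fun k hk => hk.1.2)
    exact ⟨n, O, hO, hOs⟩
  choose n O hO hOs using h2
  -- uncountably many `α` give the same
  have h3 : ∃ q : ℕ × C, {α | (n α, (⟨O α, hO α⟩ : C)) = q}.Infinite := by
    by_contra hcon
    push Not at hcon
    have hcC : Countable C := hC.to_subtype
    have h4 : (univ : Set ι) = ⋃ q : ℕ × C, {α | (n α, (⟨O α, hO α⟩ : C)) = q} := by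
      ext α
      simp
    have h5 : (univ : Set ι).Countable := by
      rw [h4]
      exact countable_iUnion fun q => (hcon q).countable
    have h6 : #ι ≤ ℵ₀ := by
      rw [← mk_univ]
      exact h5.le_aleph0
    rw [hι] at h6
    exact absurd h6 (not_le.mpr aleph0_lt_aleph_one)
  obtain ⟨⟨m, O'⟩, hq⟩ := h3
  obtain ⟨t, htq, htm⟩ := hq.exists_subset_card_eq (m + 1)
  obtain ⟨hOo, ⟨y, hy⟩, -⟩ := hCV O'.1 O'.2
  have h7 : ∀ α ∈ t, y ∈ st (v α \ u m) := by
    intro α hα
    have h8 : (n α, (⟨O α, hO α⟩ : C)) = (m, O') := htq hα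
    have h9 : n α = m := congrArg Prod.fst h8
    have h10 : O α = O'.1 := congrArg (fun q : ℕ × C => (q.2 : Set OmegaStar)) h8
    have h11 := hOs α
    rw [h9, h10] at h11
    exact h11 hy
  have h12 : y ∈ st (⋂ k ∈ Iic (m + 1), u k) := by
    refine hVU (m + 1) (Nat.le_add_left 1 m) t htm (mem_iInter₂.mpr fun α hα => hvV α ?_)
    exact Filter.mem_of_superset (h7 α hα) sdiff_subset
  obtain ⟨α, hα⟩ : t.Nonempty := by
    rw [← Finset.card_pos, htm]
    exact Nat.succ_pos m
  have h13 : (⋂ k ∈ Iic (m + 1), u k) ∩ (v α \ u m) ∈ y.1 := Filter.inter_mem h12 (h7 α hα)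
  have h14 : (⋂ k ∈ Iic (m + 1), u k) ∩ (v α \ u m) = ∅ := by
    rw [eq_empty_iff_forall_notMem]
    rintro k ⟨hk1, hk2⟩
    exact hk2.2 (mem_iInter₂.mp hk1 m (Nat.le_succ m))
  rw [h14] at h13
  exact Ultrafilter.empty_notMem h13

end Pool.Agent.Helper9_PSet
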