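import Mathlib

/-!
# The Proper Forcing Axiom and pseudo-intersections

Forcing notions are preorders, `q ≤ p` means that `q` is stronger than `p`.
-/

set_option autoImplicit false

namespace Pool.Agent.Helper9_PSet

open Set Cardinal

/-- compatible conditions -/
def Compat {P : Type} [Preorder P] (a b : P) : Prop := ∃ c, c ≤ a ∧ c ≤ b

/-- dense set of conditions -/
def DenseIn {P : Type} [Preorder P] (D : Set P) : Prop := ∀ p, ∃ d ∈ D, d ≤ p

/-- Proper forcing notions.  For club many countable sets `M` of conditions and sets of conditions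
(namely those which are closed under some fixed function `F` on the finite sequences), every
condition `p ∈ M` has an `M`-generic extension `q`: for every dense `D ∈ M`, the set `D ∩ M` is
predense below `q`. -/
def Proper (P : Type) [Preorder P] : Prop :=
  ∃ F : List (P ⊕ Set P) → P ⊕ Set P, ∀ M : Set (P ⊕ Set P), M.Countable →
    (∀ l : List (P ⊕ Set P), (∀ x ∈ l, x ∈ M) → F l ∈ M) →
    ∀ p : P, Sum.inl p ∈ M → ∃ q, q ≤ p ∧ ∀ D : Set P, Sum.inr D ∈ M → DenseIn D →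
      ∀ r, r ≤ q → ∃ d ∈ D, Sum.inl d ∈ M ∧ Compat d r

/-- filters on a forcing notion -/
structure IsFil {P : Type} [Preorder P] (G : Set P) : Prop where
  ne : G.Nonempty
  up : ∀ p ∈ G, ∀ q, p ≤ q → q ∈ G
  dir : ∀ p ∈ G, ∀ q ∈ G, ∃ r ∈ G, r ≤ p ∧ r ≤ q

/-- the Proper Forcing Axiom: for every proper forcing notion and every family of at most `ℵ₁`
dense sets there is a filter which meets all of them -/
def PFA : Prop :=
  ∀ (P : Type) [Preorder P] [Nonempty P], Proper P → ∀ E : Set (Set P), #E ≤ aleph 1 →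
    (∀ D ∈ E, DenseIn D) → ∃ G : Set P, IsFil G ∧ ∀ D ∈ E, (G ∩ D).Nonempty

/-- countable unions of linked sets are proper -/
theorem proper_of_linked {P : Type} [Preorder P] (c : P → ℕ)
    (hc : ∀ a b, c a = c b → Compat a b) : Proper P := by
  classical
  refine ⟨fun l => match l with
    | [] => Sum.inr ∅
    | Sum.inl p :: _ => Sum.inl p
    | Sum.inr D :: t => if h : ∃ d ∈ D, c d = t.length then Sum.inl h.choose else Sum.inr D,
    fun M _ hM p _ => ⟨p, le_rfl, fun D hD hd r _ => ?_⟩⟩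
  obtain ⟨d0, hd0, hd0r⟩ := hd r
  have hex : ∃ d ∈ D, c d = (List.replicate (c d0) (Sum.inr D : P ⊕ Set P)).length :=
    ⟨d0, hd0, by simp⟩
  have h1 := hM (Sum.inr D :: List.replicate (c d0) (Sum.inr D)) (by
    intro x hx
    rcases List.mem_cons.mp hx with rfl | hx
    · exact hD
    · rw [List.eq_of_mem_replicate hx]
      exact hD)
  simp only [dif_pos hex] at h1
  refine ⟨hex.choose, hex.choose_spec.1, h1, ?_⟩
  obtain ⟨e, he1, he2⟩ := hc hex.choose d0 (by rw [hex.choose_spec.2]; simp)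
  exact ⟨e, he1, he2.trans hd0r⟩

/-- the forcing notion which adds a pseudo-intersection of the family `S` -/
def Mth (S : Set (Set ℕ)) : Type := {x : Finset ℕ × Finset (Set ℕ) // ∀ a ∈ x.2, a ∈ S}

instance (S : Set (Set ℕ)) : Preorder (Mth S) where
  le y x := x.1.1 ⊆ y.1.1 ∧ x.1.2 ⊆ y.1.2 ∧ ∀ n ∈ y.1.1, n ∉ x.1.1 → ∀ a ∈ x.1.2, n ∈ a
  le_refl x := ⟨Finset.Subset.refl _, Finset.Subset.refl _, fun n hn hn' => absurd hn hn'⟩
  le_trans z y x h1 h2 := ⟨h2.1.trans h1.1, h2.2.1.trans h1.2.1, fun n hn hn' a ha => by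
    by_cases h : n ∈ y.1.1
    · exact h2.2.2 n h hn' a ha
    · exact h1.2.2 n hn h a (h2.2.1 ha)⟩

theorem mth_le {S : Set (Set ℕ)} (y x : Mth S) :
    y ≤ x ↔ x.1.1 ⊆ y.1.1 ∧ x.1.2 ⊆ y.1.2 ∧ ∀ n ∈ y.1.1, n ∉ x.1.1 → ∀ a ∈ x.1.2, n ∈ a :=
  Iff.rfl

/-- the intersection of the elements of every finite subset of `S` is infinite -/
def SFIP (S : Set (Set ℕ)) : Prop :=
  ∀ t : Finset (Set ℕ), (∀ a ∈ t, a ∈ S) → {n : ℕ | ∀ a ∈ t, n ∈ a}.Infinite

/-- Pseudo-intersections: `p > ω₁`. -/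
theorem pseudo (h : PFA) (S : Set (Set ℕ)) (hS : #S ≤ aleph 1) (hf : SFIP S) :
    ∃ p : Set ℕ, p.Infinite ∧ ∀ a ∈ S, (p \ a).Finite := by
  classical
  have hne : Nonempty (Mth S) := ⟨⟨(∅, ∅), by simp⟩⟩
  have hp : Proper (Mth S) := by
    refine proper_of_linked (fun x => Encodable.encode x.1.1) fun a b hab => ?_
    have e : a.1.1 = b.1.1 := Encodable.encode_injective hab
    refine ⟨⟨(a.1.1, a.1.2 ∪ b.1.2), fun c hc => ?_⟩, ?_, ?_⟩
    · rcases Finset.mem_union.mp hc with hc | hc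
      · exact a.2 c hc
      · exact b.2 c hc
    · exact ⟨Finset.Subset.refl _, Finset.subset_union_left, fun n hn hn' => absurd hn hn'⟩
    · refine ⟨e ▸ Finset.Subset.refl _, Finset.subset_union_right, fun n hn hn' => ?_⟩
      exact absurd (e ▸ hn) hn'
  let D : Set ℕ → Set (Mth S) := fun a => {x | a ∈ x.1.2}
  let E : ℕ → Set (Mth S) := fun n => {x | ∃ m ∈ x.1.1, n ≤ m}
  have hcard : #(↥(D '' S ∪ range E)) ≤ aleph 1 := by
    refine (mk_union_le _ _).trans ?_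
    have h1 : #(↥(D '' S)) ≤ aleph 1 := mk_image_le.trans hS
    have h2 : #(↥(range E)) ≤ aleph 1 :=
      (mk_range_le).trans (by rw [mk_nat]; exact aleph0_le_aleph 1)
    exact (add_le_add h1 h2).trans (by rw [add_eq_self (aleph0_le_aleph 1)])
  obtain ⟨G, hG, hGE⟩ := h (Mth S) hp (D '' S ∪ range E) hcard (by
    rintro _ (⟨a, ha, rfl⟩ | ⟨n, rfl⟩) x
    · refine ⟨⟨(x.1.1, insert a x.1.2), fun c hc => ?_⟩, ?_, ?_⟩
      · rcases Finset.mem_insert.mp hc with rfl | hc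
        · exact ha
        · exact x.2 c hc
      · exact Finset.mem_insert_self _ _
      · exact ⟨Finset.Subset.refl _, Finset.subset_insert _ _, fun n hn hn' => absurd hn hn'⟩
    · obtain ⟨m, hm, hnm⟩ := (hf x.1.2 x.2).exists_gt n
      refine ⟨⟨(insert m x.1.1, x.1.2), x.2⟩, ⟨m, Finset.mem_insert_self _ _, hnm.le⟩, ?_⟩
      refine ⟨Finset.subset_insert _ _, Finset.Subset.refl _, fun k hk hk' a ha => ?_⟩
      rcases Finset.mem_insert.mp hk with rfl | hk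
      · exact hm a ha
      · exact absurd hk hk')
  refine ⟨{n | ∃ x ∈ G, n ∈ x.1.1}, ?_, ?_⟩
  · refine Set.infinite_of_not_bddAbove ?_
    rintro ⟨N, hN⟩
    obtain ⟨x, hx, m, hm, hNm⟩ := hGE (E (N + 1)) (Or.inr ⟨_, rfl⟩)
    have := hN ⟨x, hx, hm⟩
    omega
  · intro a ha
    obtain ⟨x, hx, hax⟩ := hGE (D a) (Or.inl ⟨a, ha, rfl⟩)
    refine (x.1.1.finite_toSet).subset ?_
    rintro n ⟨⟨y, hy, hn⟩, hna⟩
    obtain ⟨z, -, hzx, hzy⟩ := hG.dir x hx y hy
    by_contra hnx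
    exact hna (hzx.2.2 n (hzy.1 hn) hnx a hax)

/-- Domination: `b > ω₁`. -/
theorem dominate (h : PFA) (Φ : Set (ℕ → ℕ)) (hΦ : #Φ ≤ aleph 1) :
    ∃ g : ℕ → ℕ, ∀ f ∈ Φ, ∃ N, ∀ n, N ≤ n → f n ≤ g n := by
  classical
  let fb : (ℕ → ℕ) → ℕ → ℕ := fun f n => ∑ k ∈ Finset.range (n + 1), f k
  have hfb : ∀ f n m, n ≤ m → f n ≤ fb f m := fun f n m hnm =>
    Finset.single_le_sum (f := f) (fun _ _ => Nat.zero_le _)
      (Finset.mem_range.mpr (Nat.lt_succ_of_le hnm))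
  let A : (ℕ → ℕ) → Set ℕ := fun f => {x | fb f x.unpair.1 ≤ x.unpair.2}
  let C : ℕ → Set ℕ := fun n => {x | n ≤ x.unpair.1}
  have hcard : #(↥(A '' Φ ∪ range C)) ≤ aleph 1 := by
    refine (mk_union_le _ _).trans ?_
    have h1 : #(↥(A '' Φ)) ≤ aleph 1 := mk_image_le.trans hΦ
    have h2 : #(↥(range C)) ≤ aleph 1 :=
      (mk_range_le).trans (by rw [mk_nat]; exact aleph0_le_aleph 1)
    exact (add_le_add h1 h2).trans (by rw [add_eq_self (aleph0_le_aleph 1)])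
  obtain ⟨p, hp, hpa⟩ := pseudo h (A '' Φ ∪ range C) hcard (by
    intro t ht
    -- a bound for the indices `n` with `C n ∈ t` and for the functions `f` with `A f ∈ t`
    have h1 : ∀ a ∈ t, ∃ N : ℕ, ∀ n, N ≤ n → ∃ L : ℕ, ∀ m, L ≤ m → Nat.pair n m ∈ a := by
      intro a ha
      rcases ht a ha with ⟨f, -, rfl⟩ | ⟨k, rfl⟩
      · exact ⟨0, fun n _ => ⟨fb f n, fun m hm => by simpa [A] using hm⟩⟩
      · exact ⟨k, fun n hn => ⟨0, fun m _ => by simpa [C] using hn⟩⟩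
    choose! N hN using h1
    let n0 := t.sup N
    have h2 : ∀ a ∈ t, ∃ L : ℕ, ∀ m, L ≤ m → Nat.pair n0 m ∈ a := fun a ha =>
      hN a ha n0 (Finset.le_sup ha)
    choose! L hL using h2
    refine Set.infinite_of_injective_forall_mem (f := fun m => Nat.pair n0 (t.sup L + m)) ?_ ?_
    · intro x y hxy
      have := (Nat.pair_eq_pair.mp hxy).2
      omega
    · intro m a ha
      exact hL a ha _ ((Finset.le_sup ha).trans (Nat.le_add_right _ _)))
  have hx : ∀ n : ℕ, ∃ x ∈ p, n ≤ x.unpair.1 := by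
    intro n
    by_contra hcon
    push Not at hcon
    refine hp ((hpa (C n) (Or.inr ⟨n, rfl⟩)).subset fun x hx => ⟨hx, fun hx' => ?_⟩)
    exact absurd (show n ≤ x.unpair.1 from hx') (not_le.mpr (hcon x hx))
  choose X hXp hX using hx
  refine ⟨fun n => (X n).unpair.2, fun f hf => ?_⟩
  have hfin := hpa (A f) (Or.inl ⟨f, hf, rfl⟩)
  obtain ⟨N, hN⟩ := (hfin.image fun x => x.unpair.1).bddAbove
  refine ⟨N + 1, fun n hn => ?_⟩
  have hXA : X n ∈ A f := by
    by_contra hcon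
    have h1 : (X n).unpair.1 ≤ N := hN ⟨X n, ⟨hXp n, hcon⟩, rfl⟩
    have h2 := hX n
    omega
  exact (hfb f n _ (hX n)).trans hXA

/-- The diagonal argument: a pseudo-union of countably many sets which is orthogonal to the sets
`R i`. -/
theorem diag (h : PFA) {ι : Type} (hι : #ι ≤ aleph 1) (c : ℕ → Set ℕ) (R : ι → Set ℕ)
    (hR : ∀ i n, (R i ∩ c n).Finite) :
    ∃ g : ℕ → ℕ, ∀ i, (R i ∩ ⋃ n, (c n \ Iic (g n))).Finite := by
  classical
  have h1 : ∀ i n, ∃ m : ℕ, ∀ x ∈ R i ∩ c n, x ≤ m := fun i n => (hR i n).bddAbove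
  choose f hf using h1
  obtain ⟨g, hg⟩ := dominate h (range f) (mk_range_le.trans hι)
  refine ⟨g, fun i => ?_⟩
  obtain ⟨N, hN⟩ := hg (f i) ⟨i, rfl⟩
  refine ((Set.finite_Iio N).biUnion fun n _ => hR i n).subset ?_
  rintro x ⟨hx, hx'⟩
  obtain ⟨n, hn, hng⟩ := mem_iUnion.mp hx'
  refine mem_biUnion (x := n) ?_ ⟨hx, hn⟩
  by_contra hcon
  have h2 := hN n (not_lt.mp hcon)
  have h3 := hf i n x ⟨hx, hn⟩
  exact hng (h3.trans h2)

end Pool.Agent.Helper9_PSet
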