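import Pool.Agent.Helper9_PSet.Union

/-!
# Points which do not resolve `ℵ₁` P-sets
-/

set_option autoImplicit false

namespace Pool.Agent.Helper9_PSet

open Set Cardinal

/-- the clopen set `W` resolves the family `S`: there are countably many nonempty open subsets of
`W` such that every member of `S` which meets `W` contains one of them -/
def Resolves (S : Set (Set OmegaStar)) (W : Set OmegaStar) : Prop :=
  ∃ C : Set (Set OmegaStar), C.Countable ∧ (∀ V ∈ C, IsOpen V ∧ V.Nonempty ∧ V ⊆ W) ∧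
    ∀ F ∈ S, (F ∩ W).Nonempty → ∃ V ∈ C, V ⊆ F

/-- combinatorial form -/
def Res (S : Set (Set OmegaStar)) (b : Set ℕ) : Prop :=
  ∃ C : Set (Set ℕ), C.Countable ∧ (∀ c ∈ C, c.Infinite ∧ c ⊆ b) ∧
    ∀ F ∈ S, Disjoint (st b) F ∨ ∃ c ∈ C, st c ⊆ F

theorem resolves_iff (S : Set (Set OmegaStar)) (b : Set ℕ) : Resolves S (st b) ↔ Res S b := by
  classical
  constructor
  · rintro ⟨C, hC, hCV, hCF⟩
    have h1 : ∀ V ∈ C, ∃ c : Set ℕ, c.Infinite ∧ c ⊆ b ∧ st c ⊆ V := by
      intro V hV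
      obtain ⟨hVo, ⟨x, hx⟩, hVb⟩ := hCV V hV
      obtain ⟨A, hA, hAV⟩ := exists_st hVo hx
      refine ⟨A ∩ b, infinite_of_mem x (Filter.inter_mem hA (hVb hx)), inter_subset_right, ?_⟩
      exact fun y hy => hAV (Filter.mem_of_superset hy inter_subset_left)
    choose! c hc hcb hcV using h1
    refine ⟨c '' C, hC.image c, ?_, fun F hF => ?_⟩
    · rintro _ ⟨V, hV, rfl⟩
      exact ⟨hc V hV, hcb V hV⟩
    · by_cases hd : Disjoint (st b) F
      · exact Or.inl hd
      · obtain ⟨x, hx, hxF⟩ := Set.not_disjoint_iff.mp hd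
        obtain ⟨V, hV, hVF⟩ := hCF F hF ⟨x, hxF, hx⟩
        exact Or.inr ⟨c V, mem_image_of_mem c hV, (hcV V hV).trans hVF⟩
  · rintro ⟨C, hC, hCb, hCF⟩
    refine ⟨st '' C, hC.image st, ?_, fun F hF hFb => ?_⟩
    · rintro _ ⟨c, hc, rfl⟩
      refine ⟨isOpen_st c, exists_mem (hCb c hc).1, ?_⟩
      exact fun x hx => Filter.mem_of_superset hx (hCb c hc).2
    · rcases hCF F hF with hd | ⟨c, hc, hcF⟩
      · obtain ⟨x, hxF, hxb⟩ := hFb
        exact absurd hxF (Set.disjoint_left.mp hd hxb)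
      · exact ⟨st c, mem_image_of_mem st hc, hcF⟩

/-- the ideal generated by the sets which resolve `S` -/
def IR (S : Set (Set OmegaStar)) : Set (Set ℕ) := {c | ∃ b, (c \ b).Finite ∧ Res S b}

/-- the P-set property in terms of sets of natural numbers -/
theorem IsPSet.sdir {F : Set OmegaStar} (hF : IsPSet F) (c : ℕ → Set ℕ)
    (hc : ∀ n, Disjoint (st (c n)) F) : ∃ d, Disjoint (st d) F ∧ ∀ n, (c n \ d).Finite := by
  have h1 := hF.int (fun n => (st (c n))ᶜ) (fun n => (isClosed_st _).isOpen_compl)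
    (fun n x hx hxc => Set.disjoint_left.mp (hc n) hxc hx)
  obtain ⟨A, hFA, hA⟩ := exists_between hF.closed isOpen_interior h1
  refine ⟨Aᶜ, ?_, fun n => ?_⟩
  · refine Set.disjoint_left.mpr fun x hx hxF => ?_
    exact (Ultrafilter.compl_mem_iff_notMem.mp hx) (hFA hxF)
  · refine st_subset.mp fun x hx => ?_
    refine Ultrafilter.compl_mem_iff_notMem.mpr fun hxA => ?_
    exact (mem_iInter.mp (interior_subset (hA hxA)) n) hx

theorem tpi_IR (h : PFA) (S : Set (Set OmegaStar)) (hS : #S ≤ aleph 1)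
    (hP : ∀ F ∈ S, IsPSet F) : TPI (IR S) := by
  classical
  refine ⟨fun c ⟨b, hcb, hb⟩ d hdc => ⟨b, diff_trans hdc hcb, hb⟩, fun A hA => ?_,
    fun c hc => ?_⟩
  · -- tall
    obtain ⟨B, hBA, hB, hBS⟩ := tall_inter h hS
      (fun F : S => {B | Disjoint (st B) F.1 ∨ st B ⊆ F.1})
      (by
        rintro F c (hc | hc) d hdc
        · exact Or.inl (Set.disjoint_left.mpr fun x hx =>
            Set.disjoint_left.mp hc (st_subset.mpr hdc hx))
        · exact Or.inr ((st_subset.mpr hdc).trans hc))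
      (by
        intro F A hA
        by_cases hAF : st A ⊆ F.1
        · exact ⟨A, Subset.rfl, hA, Or.inr hAF⟩
        · obtain ⟨x, hxA, hxF⟩ := not_subset.mp hAF
          obtain ⟨B, hB, hBF⟩ := exists_st (hP F.1 F.2).closed.isOpen_compl hxF
          refine ⟨A ∩ B, inter_subset_left, infinite_of_mem x (Filter.inter_mem hxA hB),
            Or.inl (Set.disjoint_left.mpr fun y hy => ?_)⟩
          exact hBF (Filter.mem_of_superset hy inter_subset_right))
      A hA
    refine ⟨B, hBA, hB, B, by simp, {B}, countable_singleton _, fun c hc => ?_, fun F hF => ?_⟩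
    · rw [mem_singleton_iff.mp hc]
      exact ⟨hB, Subset.rfl⟩
    · rcases hBS ⟨F, hF⟩ with h1 | h1
      · exact Or.inl h1
      · exact Or.inr ⟨B, mem_singleton _, h1⟩
  · -- countably directed
    choose b hcb hb using hc
    choose C hCc hC hCS using hb
    have h1 : ∀ F : {F : Set OmegaStar // F ∈ S ∧ ∀ n, Disjoint (st (b n)) F},
        ∃ d, Disjoint (st d) F.1 ∧ ∀ n, (b n \ d).Finite := fun F =>
      (hP F.1 F.2.1).sdir b F.2.2
    choose e he heb using h1
    obtain ⟨g, hg⟩ := diag h (ι := {F : Set OmegaStar // F ∈ S ∧ ∀ n, Disjoint (st (b n)) F})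
      ((mk_subtype_mono fun F hF => hF.1).trans hS) b (fun F => (e F)ᶜ)
      (fun F n => (heb F n).subset fun k hk => ⟨hk.2, hk.1⟩)
    refine ⟨⋃ n, (b n \ Iic (g n)), ⟨⋃ n, (b n \ Iic (g n)), by simp,
      ⋃ n, (fun c => c \ Iic (g n)) '' C n, countable_iUnion fun n => (hCc n).image _, ?_, ?_⟩,
      fun n => ?_⟩
    · intro c hc
      obtain ⟨n, d, hd, rfl⟩ := mem_iUnion.mp hc
      refine ⟨(hC n d hd).1.sdiff (finite_Iic _), ?_⟩
      exact fun k hk => mem_iUnion.mpr ⟨n, (hC n d hd).2 hk.1, hk.2⟩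
    · intro F hF
      by_cases hall : ∀ n, Disjoint (st (b n)) F
      · left
        have h2 : ((⋃ n, (b n \ Iic (g n))) \ e ⟨F, hF, hall⟩).Finite :=
          (hg ⟨F, hF, hall⟩).subset fun k hk => ⟨hk.2, hk.1⟩
        exact Set.disjoint_left.mpr fun x hx =>
          Set.disjoint_left.mp (he ⟨F, hF, hall⟩) (st_subset.mpr h2 hx)
      · right
        push Not at hall
        obtain ⟨n, hn⟩ := hall
        rcases hCS n F hF with h2 | ⟨c, hc, hcF⟩
        · exact absurd h2 hn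
        · refine ⟨c \ Iic (g n), mem_iUnion.mpr ⟨n, c, hc, rfl⟩, fun x hx => hcF ?_⟩
          exact Filter.mem_of_superset hx sdiff_subset
    · refine ((hcb n).union (finite_Iic (g n))).subset fun k hk => ?_
      by_contra hk'
      rw [mem_union, not_or] at hk'
      refine hk.2 (mem_iUnion.mpr ⟨n, ?_, hk'.2⟩)
      by_contra hkb
      exact hk'.1 ⟨hk.1, hkb⟩

/-- **Theorem E** -/
theorem no_resolve (h : PFA) (S : Set (Set OmegaStar)) (hS : #S ≤ aleph 1)
    (hP : ∀ F ∈ S, IsPSet F)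
    (hne : {x : OmegaStar | ¬ ∃ W, IsClopen W ∧ x ∈ W ∧ Resolves S W}.Nonempty) :
    IsPSet {x : OmegaStar | ¬ ∃ W, IsClopen W ∧ x ∈ W ∧ Resolves S W} ∧
      IsNowhereDense {x : OmegaStar | ¬ ∃ W, IsClopen W ∧ x ∈ W ∧ Resolves S W} := by
  have e : {x : OmegaStar | ¬ ∃ W, IsClopen W ∧ x ∈ W ∧ Resolves S W} = FI (IR S) := by
    ext x
    constructor
    · rintro hx c ⟨b, hcb, hb⟩ hc
      exact hx ⟨st b, ⟨isClosed_st b, isOpen_st b⟩, mem_of_diff_finite x hcb hc,
        (resolves_iff S b).mpr hb⟩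
    · rintro hx ⟨W, hW, hxW, hR⟩
      obtain ⟨b, hb1, hb2⟩ := exists_between hW.1 hW.2 Subset.rfl
      have hWb : W = st b := Subset.antisymm hb1 hb2
      subst hWb
      exact hx b ⟨b, by simp, (resolves_iff S b).mp hR⟩ hxW
  rw [e] at hne ⊢
  exact ⟨isPSet_FI (tpi_IR h S hS hP) hne, interior_FI (tpi_IR h S hS hP)⟩

end Pool.Agent.Helper9_PSet
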