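import Pool.Agent.Helper9_PSet.CType

/-!
# The closure of the union of `ℵ₁` nowhere dense P-sets
-/

set_option autoImplicit false

namespace Pool.Agent.Helper9_PSet

open Set Cardinal

/-- pseudo-intersections of chains -/
theorem pseudo_chain (h : PFA) {ι : Type} [LinearOrder ι] (hι : #ι ≤ aleph 1) (A : Set ℕ)
    (hA : A.Infinite) (c : ι → Set ℕ) (T : Set ι) (h1 : ∀ j ∈ T, (c j).Infinite ∧ c j ⊆ A)
    (h2 : ∀ j ∈ T, ∀ k ∈ T, k < j → (c j \ c k).Finite) :
    ∃ p, p ⊆ A ∧ p.Infinite ∧ ∀ j ∈ T, (p \ c j).Finite := by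
  classical
  have hcard : #(↥(insert A (c '' T))) ≤ aleph 1 := by
    refine mk_insert_le.trans ?_
    have h3 : #(↥(c '' T)) ≤ aleph 1 := mk_image_le.trans ((mk_set_le T).trans hι)
    refine (add_le_add h3 (one_le_aleph0.trans (aleph0_le_aleph 1))).trans ?_
    rw [add_eq_self (aleph0_le_aleph 1)]
  have key : ∀ t : Finset (Set ℕ), (∀ a ∈ t, a ∈ insert A (c '' T)) →
      ∃ B : Set ℕ, (B = A ∨ ∃ j ∈ T, B = c j) ∧ ∀ a ∈ t, (B \ a).Finite := by
    intro t
    induction t using Finset.induction_on with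
    | empty => exact fun _ => ⟨A, Or.inl rfl, fun a ha => absurd ha (Finset.notMem_empty a)⟩
    | insert a t _ ih =>
      intro ht
      obtain ⟨B, hB, hBt⟩ := ih fun b hb => ht b (Finset.mem_insert_of_mem hb)
      have hBA : B ⊆ A := by
        rcases hB with rfl | ⟨j, hj, rfl⟩
        · exact Subset.rfl
        · exact (h1 j hj).2
      rcases ht a (Finset.mem_insert_self _ _) with rfl | ⟨j, hj, rfl⟩
      · refine ⟨B, hB, fun b hb => ?_⟩
        rcases Finset.mem_insert.mp hb with rfl | hb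
        · rw [sdiff_eq_empty.mpr hBA]
          exact finite_empty
        · exact hBt b hb
      · rcases hB with rfl | ⟨k, hk, rfl⟩
        · refine ⟨c j, Or.inr ⟨j, hj, rfl⟩, fun b hb => ?_⟩
          rcases Finset.mem_insert.mp hb with rfl | hb
          · simp
          · exact (hBt b hb).subset fun n hn => ⟨(h1 j hj).2 hn.1, hn.2⟩
        · rcases lt_trichotomy j k with hjk | rfl | hjk
          · refine ⟨c k, Or.inr ⟨k, hk, rfl⟩, fun b hb => ?_⟩
            rcases Finset.mem_insert.mp hb with rfl | hb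
            · exact h2 k hk j hj hjk
            · exact hBt b hb
          · refine ⟨c j, Or.inr ⟨j, hj, rfl⟩, fun b hb => ?_⟩
            rcases Finset.mem_insert.mp hb with rfl | hb
            · simp
            · exact hBt b hb
          · refine ⟨c j, Or.inr ⟨j, hj, rfl⟩, fun b hb => ?_⟩
            rcases Finset.mem_insert.mp hb with rfl | hb
            · simp
            · exact diff_trans (h2 j hj k hk hjk) (hBt b hb)
  obtain ⟨p, hp, hpS⟩ := pseudo h _ hcard (by
    intro t ht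
    obtain ⟨B, hB, hBt⟩ := key t ht
    have hBi : B.Infinite := by
      rcases hB with rfl | ⟨j, hj, rfl⟩
      · exact hA
      · exact (h1 j hj).1
    refine (hBi.sdiff (t.finite_toSet.biUnion hBt)).mono fun n hn a ha => ?_
    by_contra hna
    exact hn.2 (mem_biUnion (x := a) ha ⟨hn.1, hna⟩))
  have hpA := hpS A (mem_insert _ _)
  refine ⟨p ∩ A, inter_subset_right, ?_, fun j hj => ?_⟩
  · intro hfin
    refine hp ((hfin.union hpA).subset fun n hn => ?_)
    by_cases hnA : n ∈ A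
    · exact Or.inl ⟨hn, hnA⟩
    · exact Or.inr ⟨hn, hnA⟩
  · exact (hpS (c j) (mem_insert_of_mem _ ⟨j, hj, rfl⟩)).subset fun n hn => ⟨hn.1.1, hn.2⟩

/-- the intersection of `ℵ₁` tall families which are closed under almost subsets is tall -/
theorem tall_inter (h : PFA) {ι : Type} (hι : #ι ≤ aleph 1) (I : ι → Set (Set ℕ))
    (hd : ∀ i, ∀ c ∈ I i, ∀ d, (d \ c).Finite → d ∈ I i)
    (ht : ∀ i, ∀ A : Set ℕ, A.Infinite → ∃ B, B ⊆ A ∧ B.Infinite ∧ B ∈ I i)
    (A : Set ℕ) (hA : A.Infinite) : ∃ B, B ⊆ A ∧ B.Infinite ∧ ∀ i, B ∈ I i := by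
  classical
  obtain ⟨hlo, hwf⟩ := exists_wellFoundedLT ι
  let Q : (i : ι) → ((j : ι) → j < i → Set ℕ) → Set ℕ → Prop := fun i prev B =>
    B.Infinite ∧ B ⊆ A ∧ B ∈ I i ∧ ∀ j (hj : j < i), (B \ prev j hj).Finite
  let c : ι → Set ℕ := (wellFounded_lt (α := ι)).fix fun i prev =>
    if hB : ∃ B, Q i prev B then hB.choose else ∅
  have hc : ∀ i, c i = if hB : ∃ B, Q i (fun j _ => c j) B then hB.choose else ∅ := fun i =>
    (wellFounded_lt (α := ι)).fix_eq _ i
  have key : ∀ i, Q i (fun j _ => c j) (c i) := by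
    intro i
    induction i using (wellFounded_lt (α := ι)).induction with
    | _ i ih =>
      obtain ⟨p, hpA, hp, hpc⟩ := pseudo_chain h hι A hA c (Iio i)
        (fun j hj => ⟨(ih j hj).1, (ih j hj).2.1⟩)
        (fun j hj k _ hkj => (ih j hj).2.2.2 k hkj)
      obtain ⟨B, hBp, hB, hBI⟩ := ht i p hp
      have hex : ∃ B, Q i (fun j _ => c j) B := ⟨B, hB, hBp.trans hpA, hBI, fun j hj =>
        (hpc j hj).subset fun n hn => ⟨hBp hn.1, hn.2⟩⟩
      rw [hc i, dif_pos hex]
      exact hex.choose_spec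
  obtain ⟨p, hpA, hp, hpc⟩ := pseudo_chain h hι A hA c univ
    (fun j _ => ⟨(key j).1, (key j).2.1⟩) (fun j _ k _ hkj => (key j).2.2.2 k hkj)
  exact ⟨p, hpA, hp, fun i => hd i (c i) (key i).2.2.1 p (hpc i (mem_univ i))⟩

/-- the intersection of `ℵ₁` tall P-ideals is a tall P-ideal -/
theorem tpi_inter (h : PFA) {ι : Type} (hι : #ι ≤ aleph 1) (I : ι → Set (Set ℕ))
    (hI : ∀ i, TPI (I i)) : TPI {c | ∀ i, c ∈ I i} := by
  classical
  refine ⟨fun c hc d hdc i => (hI i).down c (hc i) d hdc, fun A hA => ?_, fun c hc => ?_⟩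
  · exact tall_inter h hι I (fun i => (hI i).down) (fun i => (hI i).tall) A hA
  · have h1 : ∀ i, ∃ d ∈ I i, ∀ n, (c n \ d).Finite := fun i => (hI i).sdir c fun n => hc n i
    choose d hd hcd using h1
    obtain ⟨g, hg⟩ := diag h hι c (fun i => (d i)ᶜ) (fun i n =>
      (hcd i n).subset fun k hk => ⟨hk.2, hk.1⟩)
    refine ⟨⋃ n, (c n \ Iic (g n)), fun i => ?_, fun n => ?_⟩
    · exact (hI i).down (d i) (hd i) _ ((hg i).subset fun k hk => ⟨hk.2, hk.1⟩)
    · refine (finite_Iic (g n)).subset fun k hk => ?_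
      by_contra hk'
      exact hk.2 (mem_iUnion.mpr ⟨n, hk.1, hk'⟩)

/-- **Theorem D**: under PFA the closure of the union of at most `ℵ₁` nowhere dense P-sets of `ω*` is
a nowhere dense P-set. -/
theorem closure_sUnion (h : PFA) (S : Set (Set OmegaStar)) (hne : S.Nonempty)
    (hS : #S ≤ aleph 1) (hP : ∀ F ∈ S, IsPSet F ∧ IsNowhereDense F) :
    IsPSet (closure (⋃₀ S)) ∧ IsNowhereDense (closure (⋃₀ S)) := by
  have hT : TPI {c | ∀ F : S, c ∈ IF F.1} :=
    tpi_inter h hS (fun F : S => IF F.1) fun F => tpi_IF (hP F.1 F.2).1 (hP F.1 F.2).2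
  have e : closure (⋃₀ S) = FI {c | ∀ F : S, c ∈ IF F.1} := by
    refine Subset.antisymm ?_ fun x hx => ?_
    · refine closure_minimal ?_ (isClosed_FI _)
      rintro x ⟨F, hF, hxF⟩ c hc hcx
      exact Set.disjoint_left.mp (hc ⟨F, hF⟩) hcx hxF
    · by_contra hcon
      obtain ⟨A, hA, hAF⟩ := exists_st isClosed_closure.isOpen_compl hcon
      refine hx A (fun F => Set.disjoint_left.mpr fun y hy hyF => ?_) hA
      exact hAF hy (subset_closure ⟨F.1, F.2, hyF⟩)
  have hne' : (FI {c | ∀ F : S, c ∈ IF F.1}).Nonempty := by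
    obtain ⟨F, hF⟩ := hne
    obtain ⟨x, hx⟩ := (hP F hF).1.ne
    rw [← e]
    exact ⟨x, subset_closure ⟨F, hF, hx⟩⟩
  rw [e]
  exact ⟨isPSet_FI hT hne', interior_FI hT⟩

end Pool.Agent.Helper9_PSet
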